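import Pool.Agent.Helper51.REC.Goals2
import Pool.Agent.Helper42.RD.VAL

set_option autoImplicit false

namespace Pool.Agent.Helper91.REC

open NumberField Module IsDedekindDomain Pool.Agent.Helper51.RP Pool.Agent.Helper42.RD

section ord

variable {F : Type} [Field F] [NumberField F] (v : HeightOneSpectrum (𝓞 F))

theorem one_ord : ordv v (1 : F) = 0 := by
  unfold ordv; rw [map_one, WithZero.log_one, neg_zero]

omit [NumberField F] in
theorem coe_ne {y : 𝓞 F} (hy : y ≠ 0) : (y : F) ≠ 0 := by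
  intro h
  exact hy (RingOfIntegers.coe_eq_zero_iff.1 h)

theorem mem_pow_iff {y : 𝓞 F} (hy : y ≠ 0) (n : ℕ) :
    y ∈ v.asIdeal ^ n ↔ (n : ℤ) ≤ ordv v (y : F) := by
  have h1 : v.valuation F (y : F) = v.intValuation y := v.valuation_of_algebraMap y
  have h2 : v.intValuation y ≠ 0 := by
    rw [← h1]
    exact (Valuation.ne_zero_iff _).2 (coe_ne hy)
  rw [← v.intValuation_le_pow_iff_mem, ← WithZero.log_le_iff_le_exp h2]
  unfold ordv
  rw [h1]
  constructor <;> intro h <;> linarith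

theorem ord_nonneg {y : 𝓞 F} (hy : y ≠ 0) : 0 ≤ ordv v (y : F) := by
  have := (mem_pow_iff v hy 0).1 (by simp)
  simpa using this

theorem ord_prod {ι : Type} (s : Finset ι) (g : ι → F) (hg : ∀ i ∈ s, g i ≠ 0) :
    ordv v (∏ i ∈ s, g i) = ∑ i ∈ s, ordv v (g i) := by
  classical
  induction s using Finset.induction_on with
  | empty => rw [Finset.prod_empty, Finset.sum_empty, one_ord]
  | insert a s ha ih =>
    rw [Finset.prod_insert ha, Finset.sum_insert ha,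
      ordv_mul v (hg a (Finset.mem_insert_self _ _))
        (Finset.prod_ne_zero_iff.2 fun i hi => hg i (Finset.mem_insert_of_mem hi)),
      ih fun i hi => hg i (Finset.mem_insert_of_mem hi)]

end ord

section prod

open Polynomial

variable {R : Type} [CommRing R] [IsDomain R]

theorem prod_all {p : ℕ} (hp : 0 < p) {ζ : R} (hζ : IsPrimitiveRoot ζ p) (x : R) :
    x ^ p - 1 = ∏ i ∈ Finset.range p, (x - ζ ^ i) := by
  have h := X_pow_sub_C_eq_prod hζ (α := 1) (a := 1) hp (one_pow p)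
  have h2 := congrArg (Polynomial.eval x) h
  simpa [Polynomial.eval_prod] using h2

theorem prod_ne {p : ℕ} (hp : 0 < p) {ζ : R} (hζ : IsPrimitiveRoot ζ p) {i : ℕ} (hi : i < p) :
    ∏ j ∈ (Finset.range p).erase i, (ζ ^ i - ζ ^ j) = (p : R) * (ζ ^ i) ^ (p - 1) := by
  have h := X_pow_sub_C_eq_prod hζ (α := 1) (a := 1) hp (one_pow p)
  rw [← Finset.mul_prod_erase _ _ (Finset.mem_range.2 hi)] at h
  simp only [mul_one] at h
  have h2 := congrArg (fun P : R[X] => Polynomial.eval (ζ ^ i) (derivative P)) h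
  simp only [derivative_mul, derivative_sub, derivative_X_pow, derivative_C, derivative_X,
    sub_zero, one_mul, eval_add, eval_mul, eval_sub, eval_X, eval_C, sub_self, zero_mul, add_zero,
    eval_pow, eval_prod] at h2
  rw [← h2]

end prod

/-- The `p`-th roots of `1` modulo `v^(3e)`. -/
theorem root_close {p : ℕ} (hp : p.Prime) {F : Type} [Field F] [NumberField F]
    (v : HeightOneSpectrum (𝓞 F)) {ζ : 𝓞 F} (hζ : IsPrimitiveRoot ζ p) {e : ℕ}
    (he : ordv v (p : F) = e) {x : 𝓞 F} (hx : x ^ p - 1 ∈ v.asIdeal ^ (3 * e)) :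
    ∃ i < p, x - ζ ^ i ∈ v.asIdeal ^ (2 * e) := by
  classical
  by_cases h0 : ∃ i < p, x - ζ ^ i = 0
  · obtain ⟨i, hi, h⟩ := h0
    exact ⟨i, hi, by rw [h]; exact Ideal.zero_mem _⟩
  push Not at h0
  have hne : x ^ p - 1 ≠ 0 := by
    rw [prod_all hp.pos hζ, Finset.prod_ne_zero_iff]
    intro i hi
    exact h0 i (Finset.mem_range.1 hi)
  have h1 := (mem_pow_iff v hne (3 * e)).1 hx
  have h2 : ordv v ((x ^ p - 1 : 𝓞 F) : F) =
      ∑ i ∈ Finset.range p, ordv v ((x - ζ ^ i : 𝓞 F) : F) := by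
    rw [prod_all hp.pos hζ x]
    have e1 : ((∏ i ∈ Finset.range p, (x - ζ ^ i) : 𝓞 F) : F) =
        ∏ i ∈ Finset.range p, ((x - ζ ^ i : 𝓞 F) : F) := map_prod (algebraMap (𝓞 F) F) _ _
    rw [e1, ord_prod v _ _ fun i hi => coe_ne (h0 i (Finset.mem_range.1 hi))]
  obtain ⟨i, hi, hmax⟩ := Finset.exists_max_image (Finset.range p)
    (fun i => ordv v ((x - ζ ^ i : 𝓞 F) : F)) ⟨0, Finset.mem_range.2 hp.pos⟩
  have hip := Finset.mem_range.1 hi
  refine ⟨i, hip, ?_⟩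
  rw [mem_pow_iff v (h0 i hip)]
  -- the other factors
  have hζne : ∀ j ∈ (Finset.range p).erase i, ζ ^ i - ζ ^ j ≠ 0 := by
    intro j hj h
    obtain ⟨hji, hj⟩ := Finset.mem_erase.1 hj
    exact hji (hζ.pow_inj (Finset.mem_range.1 hj) hip (sub_eq_zero.1 h).symm)
  have h3 : ∀ j ∈ (Finset.range p).erase i,
      ordv v ((x - ζ ^ j : 𝓞 F) : F) ≤ ordv v ((ζ ^ i - ζ ^ j : 𝓞 F) : F) := by
    intro j hj
    obtain ⟨hji, hj'⟩ := Finset.mem_erase.1 hj
    have hjp := Finset.mem_range.1 hj'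
    obtain ⟨n, hn⟩ := Int.eq_ofNat_of_zero_le (ord_nonneg v (h0 j hjp))
    have m1 : x - ζ ^ j ∈ v.asIdeal ^ n := (mem_pow_iff v (h0 j hjp) n).2 (by rw [hn])
    have m2 : x - ζ ^ i ∈ v.asIdeal ^ n := (mem_pow_iff v (h0 i hip) n).2 (by
      rw [← hn]
      exact hmax j hj')
    have m3 : ζ ^ i - ζ ^ j ∈ v.asIdeal ^ n := by
      have e1 : ζ ^ i - ζ ^ j = (x - ζ ^ j) - (x - ζ ^ i) := by ring
      rw [e1]
      exact Ideal.sub_mem _ m1 m2
    rw [hn]
    exact (mem_pow_iff v (hζne j hj) n).1 m3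
  have hζ0 : (ζ : F) ≠ 0 := coe_ne (hζ.ne_zero hp.ne_zero)
  have hζo : ordv v (ζ : F) = 0 := by
    have h4 : ordv v ((ζ : F) ^ p) = 0 := by
      have : (ζ : F) ^ p = 1 := by
        have := congrArg (algebraMap (𝓞 F) F) hζ.pow_eq_one
        simpa using this
      rw [this, one_ord]
    rw [ordv_pow] at h4
    rcases mul_eq_zero.1 h4 with h5 | h5
    · exact absurd (Int.natCast_eq_zero.1 h5) hp.ne_zero
    · exact h5
  have hp0 : (p : F) ≠ 0 := Nat.cast_ne_zero.2 hp.ne_zero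
  have h4 : ∑ j ∈ (Finset.range p).erase i, ordv v ((ζ ^ i - ζ ^ j : 𝓞 F) : F) = e := by
    rw [← ord_prod v _ _ fun j hj => coe_ne (hζne j hj)]
    have e1 : ∏ j ∈ (Finset.range p).erase i, ((ζ ^ i - ζ ^ j : 𝓞 F) : F) =
        (((∏ j ∈ (Finset.range p).erase i, (ζ ^ i - ζ ^ j) : 𝓞 F)) : F) :=
      (map_prod (algebraMap (𝓞 F) F) _ _).symm
    rw [e1, prod_ne hp.pos hζ hip]
    have e2 : (((p : 𝓞 F) * (ζ ^ i) ^ (p - 1) : 𝓞 F) : F) = (p : F) * ((ζ : F) ^ i) ^ (p - 1) := by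
      push_cast
      rfl
    rw [e2, ordv_mul v hp0 (pow_ne_zero _ (pow_ne_zero _ hζ0)), ordv_pow, ordv_pow, hζo, he]
    ring
  rw [h2, ← Finset.add_sum_erase _ _ hi] at h1
  have h5 := Finset.sum_le_sum h3
  rw [h4] at h5
  simp only [Nat.cast_mul, Nat.cast_ofNat] at h1 ⊢
  linarith

/-- The number of the elements of the kernel of the reduction from `v^a` to `v^b`. -/
theorem card_red {F : Type} [Field F] [NumberField F] (v : HeightOneSpectrum (𝓞 F)) {a b : ℕ}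
    (hab : v.asIdeal ^ a ≤ v.asIdeal ^ b) :
    Nat.card (Ideal.Quotient.factor hab).toAddMonoidHom.ker *
      Ideal.absNorm v.asIdeal ^ b = Ideal.absNorm v.asIdeal ^ a := by
  have h1 := AddSubgroup.card_mul_index (Ideal.Quotient.factor hab).toAddMonoidHom.ker
  rw [AddSubgroup.index_ker] at h1
  have h2 : (Ideal.Quotient.factor hab).toAddMonoidHom.range = ⊤ := by
    rw [AddMonoidHom.range_eq_top]
    exact Ideal.Quotient.factor_surjective hab
  rw [h2, AddSubgroup.card_top] at h1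
  have h3 : ∀ n : ℕ, Nat.card (𝓞 F ⧸ v.asIdeal ^ n) = Ideal.absNorm v.asIdeal ^ n := by
    intro n
    rw [← map_pow, Ideal.absNorm_apply, Submodule.cardQuot_apply]
  rw [h3, h3] at h1
  exact h1

theorem l_idp : Pool.Agent.Helper51.REC.L_IDP := by
  classical
  intro p hpf F _ _ ε hε v e f hv he hf A hA hA2
  have hp : p.Prime := hpf.out
  have hNZ : NeZero p := ⟨hp.ne_zero⟩
  have hζ := hε.toInteger_isPrimitiveRoot
  set ζ : 𝓞 F := hε.toInteger with hζdef
  let I : Ideal (𝓞 F) := v.asIdeal ^ (3 * e)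
  have hle : v.asIdeal ^ (3 * e) ≤ v.asIdeal ^ (2 * e) := Ideal.pow_le_pow_right (by omega)
  have hI0 : I ≠ ⊥ := pow_ne_zero _ v.ne_bot
  have hfin : Finite (𝓞 F ⧸ I) := Ideal.finiteQuotientOfFreeOfNeBot I hI0
  have hfinU : Finite (𝓞 F ⧸ I)ˣ := inferInstance
  -- the units
  have hunit : ∀ x : 𝓞 F, x ∉ v.asIdeal → IsUnit (Ideal.Quotient.mk I x) := by
    intro x hx
    have hmax := v.isMaximal
    obtain ⟨y, i, hi, hyi⟩ := Ideal.IsMaximal.exists_inv_pow v.asIdeal hx (3 * e)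
    refine IsUnit.of_mul_eq_one (Ideal.Quotient.mk I y) ?_
    rw [← map_mul, mul_comm x y, ← (Ideal.Quotient.mk I).map_one, ← hyi, map_add,
      Ideal.Quotient.eq_zero_iff_mem.2 (show i ∈ I from hi), add_zero]
  let φ : (𝓞 F ⧸ I)ˣ →* (𝓞 F ⧸ I)ˣ := powMonoidHom p
  have hidx : φ.range.index = Nat.card φ.ker := by
    have h1 := φ.range.card_mul_index
    have h2 := φ.ker.card_mul_index
    rw [Subgroup.index_ker] at h2
    have h3 : 0 < Nat.card φ.range := Nat.card_pos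
    rw [← h2, mul_comm (Nat.card φ.ker)] at h1
    exact Nat.eq_of_mul_eq_mul_left h3 h1
  -- the injection of A
  let u : A → (𝓞 F ⧸ I)ˣ := fun x => (hunit x.1 (hA x.1 x.2)).unit
  have hu : ∀ x, ((u x : (𝓞 F ⧸ I)ˣ) : 𝓞 F ⧸ I) = Ideal.Quotient.mk I x.1 := fun x =>
    IsUnit.unit_spec _
  have hinj : Function.Injective fun x : A => (QuotientGroup.mk (u x) : (𝓞 F ⧸ I)ˣ ⧸ φ.range) := by
    intro x y hxy
    by_contra hne
    have h1 : (u y)⁻¹ * u x ∈ φ.range := QuotientGroup.eq.1 hxy.symm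
    obtain ⟨w, hw⟩ := h1
    have h2 : w ^ p = (u y)⁻¹ * u x := hw
    obtain ⟨t, ht⟩ := Ideal.Quotient.mk_surjective (w : 𝓞 F ⧸ I)
    refine hA2 x.1 x.2 y.1 y.2 (fun h => hne (Subtype.ext h)) ⟨t, ?_⟩
    show x.1 - y.1 * t ^ p ∈ I
    rw [← Ideal.Quotient.eq_zero_iff_mem, map_sub, map_mul, map_pow, ht, ← hu, ← hu,
      ← Units.val_pow_eq_pow_val, h2, ← Units.val_mul, mul_inv_cancel_left, sub_self]
  have hcard : A.card ≤ Nat.card φ.ker := by
    rw [← hidx]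
    have h1 := Nat.card_le_card_of_injective _ hinj
    rwa [Nat.card_eq_fintype_card, Fintype.card_coe] at h1
  refine hcard.trans ?_
  -- the kernel
  let ψ := Ideal.Quotient.factor hle
  have hker : ∀ w : φ.ker, ∃ i : Fin p,
      ((w.1 : (𝓞 F ⧸ I)ˣ) : 𝓞 F ⧸ I) - Ideal.Quotient.mk I (ζ ^ (i : ℕ)) ∈
        ψ.toAddMonoidHom.ker := by
    intro w
    obtain ⟨x, hx⟩ := Ideal.Quotient.mk_surjective ((w.1 : (𝓞 F ⧸ I)ˣ) : 𝓞 F ⧸ I)
    have h1 : (w.1 : (𝓞 F ⧸ I)ˣ) ^ p = 1 := w.2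
    have h2 : x ^ p - 1 ∈ I := by
      rw [← Ideal.Quotient.eq_zero_iff_mem, map_sub, map_pow, map_one, hx,
        ← Units.val_pow_eq_pow_val, h1, Units.val_one, sub_self]
    obtain ⟨i, hi, h3⟩ := root_close hp v hζ he h2
    refine ⟨⟨i, hi⟩, ?_⟩
    rw [← hx, ← map_sub]
    show ψ (Ideal.Quotient.mk I (x - ζ ^ i)) = 0
    have h4 : ψ (Ideal.Quotient.mk I (x - ζ ^ i)) = Ideal.Quotient.mk _ (x - ζ ^ i) := rfl
    rw [h4, Ideal.Quotient.eq_zero_iff_mem]
    exact h3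
  choose i hi using hker
  have hinj2 : Function.Injective fun w : φ.ker =>
      ((i w, ⟨_, hi w⟩) : Fin p × ψ.toAddMonoidHom.ker) := by
    intro w w' h
    have h1 : i w = i w' := congrArg Prod.fst h
    have h2 := congrArg (fun z : Fin p × ψ.toAddMonoidHom.ker => (z.2 : 𝓞 F ⧸ I)) h
    simp only at h2
    rw [h1] at h2
    exact Subtype.ext (Units.ext (sub_left_injective h2))
  have hfinK : Finite ψ.toAddMonoidHom.ker := inferInstance
  have h1 := Nat.card_le_card_of_injective _ hinj2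
  rw [Nat.card_prod, Nat.card_eq_fintype_card (α := Fin p), Fintype.card_fin] at h1
  refine h1.trans (le_of_eq ?_)
  have h2 : Nat.card ψ.toAddMonoidHom.ker * Ideal.absNorm v.asIdeal ^ (2 * e) =
      Ideal.absNorm v.asIdeal ^ (3 * e) := card_red v hle
  rw [hf] at h2
  have h3 : (p ^ f) ^ (3 * e) = (p ^ f) ^ e * (p ^ f) ^ (2 * e) := by
    rw [← pow_add]
    congr 1
    ring
  rw [h3] at h2
  have h4 := Nat.eq_of_mul_eq_mul_right (pow_pos (pow_pos hp.pos f) (2 * e)) h2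
  rw [h4, pow_add, pow_one, ← pow_mul, mul_comm f e]

end Pool.Agent.Helper91.REC
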